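import Pool.Agent.Q116.SC.Final

/-!
# Snark covers of non-3-edge-colourable cubic graphs (MP_faaf88_co, Q1: yes)

Every connected cubic graph `A`, possibly with multiple edges, loops and semi-edges, which is not
3-edge-colourable is covered by a simple, 2-connected graph which is not 3-edge-colourable.

Definitions (in `Pool/Agent/Q116/SC/Basic.lean` and `Final.lean`):

* `Q116.SC.MGraph V D`: a graph with vertex set `V` and set of edge-ends `D`; `vert d` is the
  vertex of the edge-end `d` and `op d` the other end of its edge. A semi-edge is an edge-end with
  `op d = d`, a loop consists of two edge-ends `d ≠ op d` at the same vertex.
* `MGraph.Connected`: there is a vertex and any two vertices are joined by a walk.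
* `MGraph.Cubic`: every vertex has exactly three edge-ends.
* `MGraph.Colorable`: there is `c : D → Fin 3` with `c (op d) = c d` which is injective on the
  edge-ends at every vertex.
* `TwoConnected H`, for a simple graph `H`: at least three vertices, connected, and connected
  after the deletion of any one vertex.
* `EdgeColorable3 H`: the edges of the simple graph `H` can be coloured with three colours such
  that any two edges sharing a vertex have different colours.
* `SimpleCover H A f F`: `f : V(H) → V(A)`, and `F` sends the edge-ends of `H` (its darts) to
  edge-ends of `A`, an edge-end at `v` to one at `f v`, bijectively for each `v`, and the two ends
  `x`, `x.symm` of an edge of `H` to `d`, `op d`, i.e. to the two ends of one edge or loop of `A`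
  or both to the single end of a semi-edge.

Proof. (1) Two copies of `A` joined at the semi-edges form a non-colourable cover without
semi-edges. (2) If there is a bridge, take a minimal vertex set `X` left by a single edge-end `e`,
another edge-end `f` at the vertex of `e`, and the 10-fold cover whose sheets are the vertices of
the Petersen graph, in which `f` moves along the two 5-cycles and the edges outside `X` move along
the spokes. By the parity lemma a 3-edge-colouring of this cover gives one of the Petersen graph.
The cover is bridgeless, as every edge is in the support of a flow with values in `ZMod 3`.
(3) A bridgeless non-colourable graph is made simple by cutting every edge and joining its ends to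
a copy of a simple cover cut at one edge over it; by the parity lemma the result is not colourable.
(4) A non-colourable component is connected, bridgeless and cubic, hence 2-connected.
-/

namespace Pool.Agent.Results.MP_faaf88_co.SnarkCovers

open Q116.SC

/-- **Result.** Every finite connected cubic graph (with multiple edges, loops and semi-edges
allowed) which is not 3-edge-colourable is covered by a finite simple 2-connected graph which is
not 3-edge-colourable. (The covering map is moreover onto.) -/
theorem result (V D : Type) [Finite V] [Finite D] (A : MGraph V D) (hconn : A.Connected)
    (hcubic : A.Cubic) (hcol : ¬ A.Colorable) :
    ∃ (W : Type) (_ : Finite W) (H : SimpleGraph W), TwoConnected H ∧ ¬ EdgeColorable3 H ∧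
      ∃ (f : W → V) (F : H.Dart → D), SimpleCover H A f F ∧ Function.Surjective f :=
  main V D A hconn hcubic hcol

end Pool.Agent.Results.MP_faaf88_co.SnarkCovers
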